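import Mathlib

open Finset Function

namespace Pool.Agent.Results.MP_0f9109_lc.FourFifths

/-- A single-item mechanism for bidder set `ι`: allocation probabilities and expected payments
as functions of the bid vector. -/
structure Mech (ι : Type) where
  x : (ι → ℝ) → ι → ℝ
  p : (ι → ℝ) → ι → ℝ

/-- Feasible, individually rational and truthful in expectation on all positive bid vectors. -/
def Valid {ι : Type} [Fintype ι] [DecidableEq ι] (M : Mech ι) : Prop :=
  ∀ v : ι → ℝ, (∀ i, 0 < v i) →
    (∀ i, 0 ≤ M.x v i) ∧ (∑ i, M.x v i ≤ 1) ∧ (∀ i, 0 ≤ M.x v i * v i - M.p v i) ∧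
    ∀ (i : ι) (b : ℝ), 0 < b →
      M.x (update v i b) i * v i - M.p (update v i b) i ≤ M.x v i * v i - M.p v i

/-- Expected revenue when the valuation vector is `val ω` with probability `w ω`. -/
def rev {Ω ι : Type} [Fintype Ω] [Fintype ι] (w : Ω → ℝ) (val : Ω → ι → ℝ) (M : Mech ι) : ℝ :=
  ∑ ω, w ω * ∑ i, M.p (val ω) i

/-- The optimal revenue. -/
noncomputable def OPT {Ω ι : Type} [Fintype Ω] [Fintype ι] [DecidableEq ι]
    (w : Ω → ℝ) (val : Ω → ι → ℝ) : ℝ :=
  sSup {r | ∃ M : Mech ι, Valid M ∧ r = rev w val M}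

/-- `M` is a revenue-maximizing valid mechanism. -/
def IsOpt {Ω ι : Type} [Fintype Ω] [Fintype ι] [DecidableEq ι]
    (w : Ω → ℝ) (val : Ω → ι → ℝ) (M : Mech ι) : Prop :=
  Valid M ∧ ∀ M' : Mech ι, Valid M' → rev w val M' ≤ rev w val M

/-- The `k` highest bidders, ties broken by index. -/
noncomputable def topK {n : ℕ} (k : ℕ) (v : Fin n → ℝ) : Finset (Fin n) :=
  univ.filter fun i => (univ.filter fun j => v i < v j ∨ (v j = v i ∧ j < i)).card < k

/-- The event conditioned on: the bidders outside `K` have values `u`, and every bidder in `K`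
has value at least the maximum of `u`. -/
def Cond {n : ℕ} (K : Finset (Fin n)) (u : {j // j ∉ K} → ℝ) (v : Fin n → ℝ) : Prop :=
  (∀ j : {j // j ∉ K}, v j = u j) ∧ ∀ i ∈ K, ∀ j : {j // j ∉ K}, u j ≤ v i

open scoped Classical in
/-- Conditional probabilities given that event. -/
noncomputable def condW {Ω : Type} [Fintype Ω] {n : ℕ} (w : Ω → ℝ) (val : Ω → Fin n → ℝ)
    (K : Finset (Fin n)) (u : {j // j ∉ K} → ℝ) : Ω → ℝ :=
  fun ω => if Cond K u (val ω) then w ω / ∑ ω' with Cond K u (val ω'), w ω' else 0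

/-- A family of mechanisms, one for each set `K` and each vector of outside values. -/
abbrev Family (n : ℕ) : Type :=
  (K : Finset (Fin n)) → ({j // j ∉ K} → ℝ) → Mech {i // i ∈ K}

/-- The family is a `k`-lookahead mechanism: whenever the profile `val ω` has positive
probability, the mechanism used on it is revenue-maximizing for the conditional distribution. -/
def IsLookahead {Ω : Type} [Fintype Ω] {n : ℕ} (k : ℕ) (w : Ω → ℝ) (val : Ω → Fin n → ℝ)
    (M : Family n) : Prop :=
  ∀ ω, 0 < w ω →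
    IsOpt (condW w val (topK k (val ω)) (fun j => val ω j))
      (fun ω' (i : {i // i ∈ topK k (val ω)}) => val ω' i)
      (M (topK k (val ω)) (fun j => val ω j))

/-- Expected revenue of the `k`-lookahead mechanism given by the family `M`. -/
noncomputable def lookRev {Ω : Type} [Fintype Ω] {n : ℕ} (k : ℕ) (w : Ω → ℝ)
    (val : Ω → Fin n → ℝ) (M : Family n) : ℝ :=
  ∑ ω, w ω * ∑ i : {i // i ∈ topK k (val ω)},
    (M (topK k (val ω)) (fun j => val ω j)).p (fun i => val ω i) i

section Existence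
variable {Ω ι : Type} [Fintype Ω] [Fintype ι] [DecidableEq ι]

lemma x_le_one {M : Mech ι} (hM : Valid M) {v : ι → ℝ} (hv : ∀ i, 0 < v i) (i : ι) :
    M.x v i ≤ 1 :=
  (Finset.single_le_sum (f := fun i => M.x v i) (fun j _ => (hM v hv).1 j) (mem_univ i)).trans
    (hM v hv).2.1

omit [Fintype ι] in
lemma upd_pos {v : ι → ℝ} (hv : ∀ i, 0 < v i) (i : ι) {b : ℝ} (hb : 0 < b) :
    ∀ j, 0 < update v i b j := by
  intro j
  by_cases h : j = i
  · subst h; simpa using hb
  · simpa [update_of_ne h] using hv j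

lemma sum_p_le {M : Mech ι} (hM : Valid M) {v : ι → ℝ} (hv : ∀ i, 0 < v i) :
    ∑ i, M.p v i ≤ ∑ i, v i := by
  refine Finset.sum_le_sum fun i _ => ?_
  have h1 := (hM v hv).2.2.1 i
  have h2 := x_le_one hM hv i
  nlinarith [hv i]

lemma normalize (M : Mech ι) (hM : Valid M) :
    ∃ M' : Mech ι, Valid M' ∧ (∀ v i, M'.x v i ∈ Set.Icc (0:ℝ) 1 ∧ M'.p v i ∈ Set.Icc 0 |v i|) ∧
      ∀ v, (∀ i, 0 < v i) → ∀ i, M.p v i ≤ M'.p v i := by
  classical
  let c : (ι → ℝ) → ι → ℝ := fun v i =>
    sInf {r | ∃ b : ℝ, 0 < b ∧ r = M.x (update v i b) i * b - M.p (update v i b) i}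
  have hne : ∀ v i, {r | ∃ b : ℝ, 0 < b ∧
      r = M.x (update v i b) i * b - M.p (update v i b) i}.Nonempty :=
    fun v i => ⟨_, 1, one_pos, rfl⟩
  have hlb : ∀ v, (∀ i, 0 < v i) → ∀ i, ∀ r ∈ {r | ∃ b : ℝ, 0 < b ∧
      r = M.x (update v i b) i * b - M.p (update v i b) i}, 0 ≤ r := by
    rintro v hv i r ⟨b, hb, rfl⟩
    have := (hM _ (upd_pos hv i hb)).2.2.1 i
    simpa using this
  have hc0 : ∀ v, (∀ i, 0 < v i) → ∀ i, 0 ≤ c v i := fun v hv i => le_csInf (hne v i) (hlb v hv i)
  have hc1 : ∀ v, (∀ i, 0 < v i) → ∀ i, c v i ≤ M.x v i * v i - M.p v i := by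
    intro v hv i
    refine csInf_le ⟨0, hlb v hv i⟩ ⟨v i, hv i, by simp⟩
  have hc2 : ∀ v, (∀ i, 0 < v i) → ∀ i, -M.p v i ≤ c v i := by
    intro v hv i
    refine le_csInf (hne v i) ?_
    rintro r ⟨b, hb, rfl⟩
    have h := (hM _ (upd_pos hv i hb)).2.2.2 i (v i) (hv i)
    simp only [update_idem, update_eq_self, update_self] at h
    have := (hM v hv).1 i
    nlinarith
  have hc3 : ∀ v i b, c (update v i b) i = c v i := by
    intro v i b
    simp only [c, update_idem]
  refine ⟨⟨fun v i => if ∀ j, 0 < v j then M.x v i else 0,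
    fun v i => if ∀ j, 0 < v j then M.p v i + c v i else 0⟩, ?_, ?_, ?_⟩
  · intro v hv
    obtain ⟨h1, h2, h3, h4⟩ := hM v hv
    refine ⟨fun i => ?_, ?_, fun i => ?_, fun i b hb => ?_⟩
    · simpa [hv] using h1 i
    · simpa [hv] using h2
    · have := hc1 v hv i
      simp only [hv, implies_true, if_true]; linarith
    · have h5 := upd_pos hv i hb
      have := h4 i b hb
      simp only [hv, h5, implies_true, if_true, hc3]; linarith
  · intro v i
    by_cases hv : ∀ j, 0 < v j
    · simp only [hv, implies_true, if_true]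
      refine ⟨⟨(hM v hv).1 i, x_le_one hM hv i⟩, ?_, ?_⟩
      · have := hc2 v hv i; linarith
      · have := hc1 v hv i
        have h2 := x_le_one hM hv i
        rw [abs_of_pos (hv i)]
        nlinarith [hv i]
    · simp [hv]
  · intro v hv i
    have := hc0 v hv i
    simp only [hv, implies_true, if_true]; linarith

/-- Pairs of allocation and payment functions. -/
abbrev TT (ι : Type) : Type := ((ι → ℝ) → ι → ℝ) × ((ι → ℝ) → ι → ℝ)

lemma exists_opt (w : Ω → ℝ) (val : Ω → ι → ℝ) (hw : ∀ ω, 0 ≤ w ω) (hval : ∀ ω i, 0 < val ω i) :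
    ∃ M : Mech ι, IsOpt w val M := by
  let B : Set (TT ι) := (Set.pi Set.univ fun _ => Set.pi Set.univ fun _ => Set.Icc (0:ℝ) 1) ×ˢ
    (Set.pi Set.univ fun v => Set.pi Set.univ fun i => Set.Icc (0:ℝ) |v i|)
  have hB : IsCompact B :=
    (isCompact_univ_pi fun _ => isCompact_univ_pi fun _ => isCompact_Icc).prod
      (isCompact_univ_pi fun _ => isCompact_univ_pi fun _ => isCompact_Icc)
  let V : Set (TT ι) := {t | Valid (⟨t.1, t.2⟩ : Mech ι)}
  have hV : IsClosed V := by
    simp only [V, Valid, Set.ofPred_forall, Set.ofPred_and]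
    refine isClosed_iInter fun v => isClosed_iInter fun hv => ?_
    refine IsClosed.inter ?_ (IsClosed.inter ?_ (IsClosed.inter ?_ ?_))
    · exact isClosed_iInter fun i => isClosed_le (by fun_prop) (by fun_prop)
    · exact isClosed_le (by fun_prop) (by fun_prop)
    · exact isClosed_iInter fun i => isClosed_le (by fun_prop) (by fun_prop)
    · exact isClosed_iInter fun i => isClosed_iInter fun b => isClosed_iInter fun _ =>
        isClosed_le (by fun_prop) (by fun_prop)
  have hne : (B ∩ V).Nonempty := by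
    refine ⟨(0, 0), ⟨?_, ?_⟩, ?_⟩
    · intro v _ i _; simp
    · intro v _ i _; simp
    · intro v hv; simp
  have hcont : Continuous fun t : TT ι => rev w val (⟨t.1, t.2⟩ : Mech ι) := by
    unfold rev; fun_prop
  obtain ⟨t, ht, hmax⟩ := (hB.inter_right hV).exists_isMaxOn hne hcont.continuousOn
  refine ⟨⟨t.1, t.2⟩, ht.2, fun M' hM' => ?_⟩
  obtain ⟨M'', h1, h2, h3⟩ := normalize M' hM'
  have h4 : rev w val M' ≤ rev w val M'' :=
    Finset.sum_le_sum fun ω _ => mul_le_mul_of_nonneg_left
      (Finset.sum_le_sum fun i _ => h3 _ (hval ω) i) (hw ω)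
  refine h4.trans (hmax (a := (M''.x, M''.p)) ⟨⟨?_, ?_⟩, h1⟩)
  · intro v _ i _; exact (h2 v i).1
  · intro v _ i _; exact (h2 v i).2

lemma le_OPT (w : Ω → ℝ) (val : Ω → ι → ℝ) (hw : ∀ ω, 0 ≤ w ω) (hval : ∀ ω i, 0 < val ω i)
    (M : Mech ι) (hM : Valid M) : rev w val M ≤ OPT w val := by
  obtain ⟨M0, h0, h1⟩ := exists_opt w val hw hval
  refine le_csSup ⟨rev w val M0, ?_⟩ ⟨M, hM, rfl⟩
  rintro r ⟨M', hM', rfl⟩
  exact h1 M' hM'

end Existence

lemma exists_lookahead {Ω : Type} [Fintype Ω] {n : ℕ} (k : ℕ) (w : Ω → ℝ) (val : Ω → Fin n → ℝ)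
    (hw : ∀ ω, 0 ≤ w ω) (hval : ∀ ω i, 0 < val ω i) : ∃ M : Family n, IsLookahead k w val M := by
  have h : ∀ (K : Finset (Fin n)) (u : {j // j ∉ K} → ℝ), ∃ M : Mech {i // i ∈ K},
      IsOpt (condW w val K u) (fun ω' (i : {i // i ∈ K}) => val ω' i) M := by
    intro K u
    refine exists_opt _ _ (fun ω => ?_) (fun ω i => hval ω i)
    unfold condW
    split_ifs
    · exact div_nonneg (hw ω) (Finset.sum_nonneg fun _ _ => hw _)
    · exact le_rfl
  choose M hM using h
  exact ⟨M, fun ω _ => hM _ _⟩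

section Grid
variable {k n : ℕ}

/-- Checkerboard colour of a grid point. -/
def S (x : Fin k → Fin (n + 1)) : Prop := Even (∑ j, (x j).val)

instance (x : Fin k → Fin (n + 1)) : Decidable (S x) := by unfold S; infer_instance

lemma add_single (x : Fin k → Fin (n + 1)) (j : Fin k) :
    x + Pi.single j 1 = update x j (x j + 1) := by
  funext i
  by_cases h : i = j
  · subst h; simp
  · simp [h]

lemma S_shift (hn : Odd n) (x : Fin k → Fin (n + 1)) (j : Fin k) :
    S (x + Pi.single j 1) ↔ ¬ S x := by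
  unfold S
  rw [← Finset.add_sum_erase _ _ (mem_univ j), ← Finset.add_sum_erase _ (fun i => (x i).val) (mem_univ j)]
  have h : ∑ i ∈ univ.erase j, ((x + Pi.single j 1 : Fin k → Fin (n + 1)) i).val
      = ∑ i ∈ univ.erase j, (x i).val := by
    refine Finset.sum_congr rfl fun i hi => ?_
    simp [Pi.single_eq_of_ne (Finset.ne_of_mem_erase hi)]
  rw [h]
  simp only [Pi.add_apply, Pi.single_eq_same, Fin.val_add_one]
  split_ifs with h1
  · rw [h1]; simp only [Fin.val_last, zero_add, Nat.even_add]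
    have := Nat.not_even_iff_odd.2 hn
    tauto
  · simp only [Nat.even_add, Nat.not_even_one]
    tauto

lemma count_last (j : Fin k) :
    (∑ x : Fin k → Fin (n + 1), if x j = Fin.last n then (1:ℝ) else 0) * (n + 1)
      = (n + 1) ^ k := by
  have h : ∀ c : Fin (n + 1), (∑ x : Fin k → Fin (n + 1), if x j = c then (1:ℝ) else 0)
      = ∑ x : Fin k → Fin (n + 1), if x j = Fin.last n then (1:ℝ) else 0 := by
    intro c
    refine Fintype.sum_equiv (Equiv.addRight (Pi.single j (Fin.last n - c))) _ _ fun x => ?_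
    simp only [Equiv.coe_addRight, Pi.add_apply, Pi.single_eq_same]
    congr 1
    apply propext
    constructor
    · rintro rfl; abel
    · intro h
      have : x j = Fin.last n - (Fin.last n - c) := eq_sub_of_add_eq h
      rw [this]; abel
  have h2 : ∑ c : Fin (n + 1), (∑ x : Fin k → Fin (n + 1), if x j = c then (1:ℝ) else 0)
      = (n + 1) ^ k := by
    rw [Finset.sum_comm]
    simp
  rw [← h2, Finset.sum_congr rfl fun c _ => h c]
  simp [mul_comm]

lemma count_S (hn : Odd n) (hk : 0 < k) :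
    (∑ x : Fin k → Fin (n + 1), if S x then (1:ℝ) else 0) * 2 = (n + 1) ^ k := by
  have h : (∑ x : Fin k → Fin (n + 1), if S x then (0:ℝ) else 1)
      = ∑ x : Fin k → Fin (n + 1), if S x then (1:ℝ) else 0 := by
    refine Fintype.sum_equiv (Equiv.addRight (Pi.single ⟨0, hk⟩ 1)) _ _ fun x => ?_
    simp only [Equiv.coe_addRight, S_shift hn]
    by_cases h : S x <;> simp [h]
  have h2 : (∑ x : Fin k → Fin (n + 1), if S x then (0:ℝ) else 1)
      + (∑ x : Fin k → Fin (n + 1), if S x then (1:ℝ) else 0) = (n + 1) ^ k := by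
    rw [← Finset.sum_add_distrib]
    rw [Finset.sum_congr rfl (g := fun _ => (1:ℝ)) fun x _ => by split_ifs <;> simp]
    simp
  linarith

lemma mix (hn : Odd n) (j : Fin k) (y : (Fin k → Fin (n + 1)) → ℝ) (h0 : ∀ x, 0 ≤ y x)
    (h1 : ∀ x, y x ≤ 1) (hmono : ∀ x, x j ≠ Fin.last n → y x ≤ y (x + Pi.single j 1)) :
    ∑ x, (if S x then y x else - y x) ≤ (n + 1) ^ k / (n + 1) := by
  have hA : ∑ x, (if S x then y (x + Pi.single j 1) else 0) = ∑ x, (if S x then 0 else y x) := by
    refine Fintype.sum_equiv (Equiv.addRight (Pi.single j 1)) _ _ fun x => ?_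
    simp only [Equiv.coe_addRight, S_shift hn]
    by_cases h : S x <;> simp [h]
  have hB : ∑ x, (if S x then y x else - y x) ≤
      ∑ x, ((if S x then y (x + Pi.single j 1) else 0) - (if S x then 0 else y x)
        + (if x j = Fin.last n then (1:ℝ) else 0)) := by
    refine Finset.sum_le_sum fun x _ => ?_
    have := h0 x
    have := h1 x
    have := h0 (x + Pi.single j 1)
    by_cases h : S x <;> by_cases h' : x j = Fin.last n <;> simp only [h, h', if_true, if_false]
    · linarith
    · have := hmono x h'; linarith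
    · linarith
    · linarith
  rw [Finset.sum_add_distrib, Finset.sum_sub_distrib, hA] at hB
  have hC := count_last (n := n) j
  have hpos : (0:ℝ) < n + 1 := by positivity
  rw [le_div_iff₀ hpos, ← hC]
  exact mul_le_mul_of_nonneg_right (by linarith) hpos.le

/-- Value of a mixing bidder at grid coordinate `c`; it lies in `(1, 1 + 1/(n+1)]`. -/
noncomputable def g (c : Fin (n + 1)) : ℝ := 1 + (c.val + 1) / ((n + 1) * (n + 1))

lemma g_gt (c : Fin (n + 1)) : 1 < g c := by
  unfold g
  have : (0:ℝ) < (c.val + 1) / ((n + 1) * (n + 1)) := by positivity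
  linarith

lemma g_le (c : Fin (n + 1)) : g c ≤ 1 + 1 / (n + 1) := by
  unfold g
  have h : (c.val : ℝ) + 1 ≤ n + 1 := by
    have := c.2
    exact_mod_cast this
  have hpos : (0:ℝ) < n + 1 := by positivity
  have : ((c.val : ℝ) + 1) / ((n + 1) * (n + 1)) ≤ 1 / (n + 1) := by
    rw [div_le_div_iff₀ (by positivity) hpos]; nlinarith
  linarith

lemma g_lt (c : Fin (n + 1)) (hc : c ≠ Fin.last n) : g c < g (c + 1) := by
  unfold g
  rw [Fin.val_add_one, if_neg hc]
  have : ((c.val : ℝ) + 1) / ((n + 1) * (n + 1)) < ((c.val + 1 : ℕ) + 1) / ((n + 1) * (n + 1)) := by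
    apply div_lt_div_of_pos_right _ (by positivity)
    push_cast; linarith
  linarith

lemma g_inj : Injective (g : Fin (n + 1) → ℝ) := by
  intro a b h
  unfold g at h
  have hpos : (0:ℝ) < (n + 1) * (n + 1) := by positivity
  have h2 : ((a.val : ℝ) + 1) / ((n + 1) * (n + 1)) = ((b.val : ℝ) + 1) / ((n + 1) * (n + 1)) := by
    linarith
  rw [div_left_inj' hpos.ne'] at h2
  have : (a.val : ℝ) = b.val := by linarith
  exact Fin.ext (by exact_mod_cast this)

/-- The probabilities of the example. -/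
noncomputable def wt (ω : (Fin k → Fin (n + 1)) × Bool) : ℝ :=
  (if ω.2 then (if S ω.1 then 2 / ((n:ℝ) + 1) else 0)
    else (if S ω.1 then 1 - 2 / ((n:ℝ) + 1) else 1)) / ((n:ℝ) + 1) ^ k

/-- The value of the special bidder. -/
noncomputable def hi (n : ℕ) (b : Bool) : ℝ := if b then n + 1 else 2

lemma core {ι : Type} [Fintype ι] [DecidableEq ι] (hn : Odd n) (hn3 : 3 ≤ n)
    (s : ι) (t : Fin k → ι) (hsum : ∀ f : ι → ℝ, ∑ i, f i = f s + ∑ j, f (t j))
    (P : ℝ → (Fin k → Fin (n + 1)) → ι → ℝ) (hs : ∀ a x, P a x s = a)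
    (ht : ∀ a x j, P a x (t j) = g (x j))
    (hpos : ∀ a x, 0 < a → ∀ i, 0 < P a x i)
    (hus : ∀ a a' x, update (P a x) s a' = P a' x)
    (hut : ∀ a x j c, update (P a x) (t j) (g c) = P a (update x j c))
    (M : Mech ι) (hM : Valid M) :
    ∑ ω : (Fin k → Fin (n + 1)) × Bool, wt ω * ∑ i, M.p (P (hi n ω.2) ω.1) i
      ≤ 2 + (k + 5) / (n + 1) := by
  have hm : (4:ℝ) ≤ n + 1 := by
    have : (3:ℝ) ≤ n := by exact_mod_cast hn3
    linarith
  set m : ℝ := n + 1 with hmdef
  have hm0 : 0 < m := by linarith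
  have hN : (0:ℝ) < m ^ k := by positivity
  let y : Fin k → (Fin k → Fin (n + 1)) → ℝ := fun j x => M.x (P 2 x) (t j)
  have hp2 : ∀ x i, 0 < P 2 x i := fun x => hpos 2 x two_pos
  have hpm : ∀ x i, 0 < P m x i := fun x => hpos m x hm0
  have hy : ∀ j, ∑ x, (if S x then y j x else - y j x) ≤ m ^ k / m := by
    intro j
    refine mix hn j (y j) (fun x => (hM _ (hp2 x)).1 _) (fun x => x_le_one hM (hp2 x) _) ?_
    intro x hx
    rw [add_single]
    have hgp : ∀ c : Fin (n + 1), 0 < g c := fun c => one_pos.trans (g_gt c)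
    have e1 := (hM _ (hp2 x)).2.2.2 (t j) (g (x j + 1)) (hgp _)
    have e2 := (hM _ (hp2 (update x j (x j + 1)))).2.2.2 (t j) (g (x j)) (hgp _)
    rw [hut, ht] at e1 e2
    simp only [update_idem, update_eq_self, update_self] at e2
    have e3 := g_lt (x j) hx
    simp only [y]
    by_contra hcon
    push Not at hcon
    nlinarith
  have hline : ∀ x, wt (x, true) * ∑ i, M.p (P (hi n true) x) i
      + wt (x, false) * ∑ i, M.p (P (hi n false) x) i
      ≤ (2 + 5 / m + ∑ j, (if S x then y j x else - y j x)) / m ^ k := by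
    intro x
    obtain ⟨a1, a2, a3, -⟩ := hM _ (hp2 x)
    obtain ⟨b1, b2, b3, b4⟩ := hM _ (hpm x)
    have hY0 : 0 ≤ ∑ j, y j x := Finset.sum_nonneg fun j _ => a1 _
    have hq2 : ∑ j, M.p (P 2 x) (t j) ≤ (1 + 1 / m) * ∑ j, y j x := by
      rw [Finset.mul_sum]
      refine Finset.sum_le_sum fun j _ => ?_
      have := a3 (t j)
      rw [ht] at this
      have h2 := g_le (x j)
      have h3 := a1 (t j)
      simp only [y]
      nlinarith
    have hqm : ∑ j, M.p (P m x) (t j) ≤ (1 + 1 / m) * ∑ j, M.x (P m x) (t j) := by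
      rw [Finset.mul_sum]
      refine Finset.sum_le_sum fun j _ => ?_
      have := b3 (t j)
      rw [ht] at this
      have h2 := g_le (x j)
      have h3 := b1 (t j)
      nlinarith
    rw [hsum] at a2 b2
    have a3s := a3 s
    have b4s := b4 s 2 two_pos
    rw [hus, hs] at b4s
    rw [hs] at a3s
    have a1s := a1 s
    have b1s := b1 s
    have hY1 : ∑ j, y j x ≤ 1 - M.x (P 2 x) s := by simp only [y]; linarith
    have hZ0 : 0 ≤ ∑ j, M.x (P m x) (t j) := Finset.sum_nonneg fun j _ => b1 _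
    have hu0 : 0 < 1 / m := by positivity
    have hu1 : 1 / m ≤ 1 / 4 := one_div_le_one_div_of_le (by norm_num) hm
    have hum : 1 / m * m = 1 := by field_simp
    simp only [wt, hi, if_true, Bool.false_eq_true, if_false, hsum, ← hmdef]
    rw [div_mul_eq_mul_div, div_mul_eq_mul_div, ← add_div]
    refine div_le_div_of_nonneg_right ?_ hN.le
    have e2 : 2 / m = 2 * (1 / m) := by ring
    have e5 : 5 / m = 5 * (1 / m) := by ring
    rw [e2, e5]
    generalize 1 / m = u at *
    by_cases hS : S x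
    · simp only [hS, if_true]
      generalize ∑ j, y j x = Y at *
      generalize ∑ j, M.p (P 2 x) (t j) = Q2 at *
      generalize ∑ j, M.p (P m x) (t j) = Qm at *
      generalize ∑ j, M.x (P m x) (t j) = Z at *
      generalize M.x (P 2 x) s = a at *
      generalize M.x (P m x) s = A at *
      generalize M.p (P 2 x) s = pa at *
      generalize M.p (P m x) s = PA at *
      have h1 : u * PA ≤ (1 - a) + u * pa := by
        have : PA ≤ (A - a) * m + pa := by linarith
        have h2 : u * PA ≤ u * ((A - a) * m + pa) := mul_le_mul_of_nonneg_left this hu0.le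
        have h3 : u * ((A - a) * m + pa) = (A - a) * (u * m) + u * pa := by ring
        rw [h3, hum] at h2
        linarith
      have h2 : u * Qm ≤ 2 * u := by
        have : Qm ≤ 2 := by nlinarith
        nlinarith
      have h3 : (1 - 2 * u) * Q2 ≤ Y + u := by
        have : (1 - 2 * u) * Q2 ≤ (1 - 2 * u) * ((1 + u) * Y) :=
          mul_le_mul_of_nonneg_left hq2 (by linarith)
        nlinarith [mul_nonneg hu0.le hY0, mul_nonneg hu0.le (mul_nonneg hu0.le hY0)]
      nlinarith
    · simp only [hS, if_false, Finset.sum_neg_distrib]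
      generalize ∑ j, y j x = Y at *
      generalize ∑ j, M.p (P 2 x) (t j) = Q2 at *
      generalize M.x (P 2 x) s = a at *
      generalize M.p (P 2 x) s = pa at *
      nlinarith
  rw [Fintype.sum_prod_type]
  simp only [Fintype.sum_bool]
  refine (Finset.sum_le_sum fun x _ => hline x).trans ?_
  rw [← Finset.sum_div, Finset.sum_add_distrib, Finset.sum_comm, div_le_iff₀ hN]
  have h1 : ∑ j, ∑ x, (if S x then y j x else - y j x) ≤ k * (m ^ k / m) := by
    refine (Finset.sum_le_sum fun j _ => hy j).trans ?_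
    simp
  have h2 : ∑ _x : Fin k → Fin (n + 1), (2 + 5 / m) = m ^ k * (2 + 5 / m) := by
    simp [hmdef]; ring
  rw [h2]
  have h3 : (2 + (k + 5) / m) * m ^ k = m ^ k * (2 + 5 / m) + k * (m ^ k / m) := by
    field_simp; ring
  linarith

end Grid

section Example
variable {k n : ℕ}

/-- Profile: bidder 0 has value 1, bidder 1 has value `a`, the others sit on the grid. -/
noncomputable def prof (a : ℝ) (x : Fin k → Fin (n + 1)) : Fin (k + 2) → ℝ :=
  Fin.cons 1 (Fin.cons a fun j => g (x j))

lemma prof_gt {a : ℝ} (ha : 1 < a) (x : Fin k → Fin (n + 1)) (i : Fin (k + 2)) (hi : i ≠ 0) :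
    1 < prof a x i := by
  obtain ⟨i, rfl⟩ := Fin.exists_succ_eq.2 hi
  refine Fin.cases ?_ (fun j => ?_) i
  · simpa [prof] using ha
  · simpa [prof] using g_gt _

lemma prof_pos {a : ℝ} (ha : 0 < a) (x : Fin k → Fin (n + 1)) (i : Fin (k + 2)) :
    0 < prof a x i := by
  refine Fin.cases ?_ (fun i => Fin.cases ?_ (fun j => ?_) i) i
  · simp [prof]
  · simpa [prof] using ha
  · simpa [prof] using one_pos.trans (g_gt _)

lemma topK_eq (v : Fin (k + 2) → ℝ) (h0 : v 0 = 1) (h : ∀ i, i ≠ 0 → 1 < v i) :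
    topK (k + 1) v = univ.erase 0 := by
  ext i
  simp only [topK, mem_filter, mem_univ, true_and, mem_erase, and_true]
  constructor
  · rintro hc rfl
    have : univ.erase (0 : Fin (k + 2)) ⊆
        univ.filter fun j => v 0 < v j ∨ (v j = v 0 ∧ j < 0) := by
      intro j hj
      simp only [mem_filter, mem_univ, true_and]
      left; rw [h0]; exact h j (Finset.ne_of_mem_erase hj)
    have h2 := Finset.card_le_card this
    simp only [mem_univ, card_erase_of_mem, card_univ, Fintype.card_fin] at h2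
    omega
  · intro hi
    have : (univ.filter fun j => v i < v j ∨ (v j = v i ∧ j < i)) ⊆ (univ.erase 0).erase i := by
      intro j hj
      simp only [mem_filter, mem_univ, true_and] at hj
      simp only [mem_erase, mem_univ, and_true]
      have := h i hi
      constructor
      · rintro rfl
        rcases hj with hj | hj
        · exact lt_irrefl _ hj
        · exact lt_irrefl _ hj.2
      · rintro rfl
        rcases hj with hj | hj
        · linarith
        · linarith [hj.1]
    have h2 := Finset.card_le_card this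
    rw [card_erase_of_mem (by simpa using hi)] at h2
    simp only [mem_univ, card_erase_of_mem, card_univ, Fintype.card_fin] at h2
    omega

open scoped Classical in
/-- The price offered to bidder 1 by the comparison mechanism. -/
noncomputable def price (n : ℕ) (v : Fin (k + 2) → ℝ) : ℝ :=
  if ∃ x : Fin k → Fin (n + 1), S x ∧ ∀ j, v j.succ.succ = g (x j) then n + 1 else 2

/-- The comparison mechanism. -/
noncomputable def M0 (k n : ℕ) : Mech (Fin (k + 2)) where
  x v i := if i = 1 then (if price n v ≤ v 1 then 1 else 0)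
    else if i = 0 then (if v 1 < price n v ∧ 1 ≤ v 0 then 1 else 0) else 0
  p v i := if i = 1 then (if price n v ≤ v 1 then price n v else 0)
    else if i = 0 then (if v 1 < price n v ∧ 1 ≤ v 0 then 1 else 0) else 0

lemma sum_two (f : Fin (k + 2) → ℝ) (hf : ∀ j : Fin k, f j.succ.succ = 0) :
    ∑ i, f i = f 0 + f 1 := by
  rw [Fin.sum_univ_succ, Fin.sum_univ_succ]
  simp [hf]

lemma ss_ne_one (j : Fin k) : j.succ.succ ≠ (1 : Fin (k + 2)) := by
  intro h
  have := congrArg Fin.val h
  simp at this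

lemma M0_valid : Valid (M0 k n) := by
  intro v hv
  refine ⟨fun i => ?_, ?_, fun i => ?_, fun i b hb => ?_⟩
  · simp only [M0]; split_ifs <;> norm_num
  · rw [sum_two _ (fun j => by simp [M0, ss_ne_one])]
    have h01 : (0 : Fin (k + 2)) ≠ 1 := by simp
    simp only [M0, h01, if_true, if_false]
    split_ifs with h1 h2 h3
    · exfalso; linarith [h1.1]
    · norm_num
    · norm_num
    · norm_num
  · simp only [M0]
    split_ifs with h1 h2 h3 h4
    · subst h1; linarith
    · simp
    · subst h3; linarith [h4.2]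
    · simp
    · simp
  · by_cases h1 : i = 1
    · subst h1
      have hp : price n (update v 1 b) = price n v := by
        simp only [price, update_of_ne (ss_ne_one _)]
      simp only [M0, if_true, hp, update_self]
      split_ifs <;> linarith
    · by_cases h0 : i = 0
      · subst h0
        have hp : price n (update v 0 b) = price n v := by
          simp only [price, update_of_ne (Fin.succ_ne_zero _)]
        have h10 : (1 : Fin (k + 2)) ≠ 0 := fun h => h1 h.symm
        simp only [M0, h1, if_true, if_false, hp, update_self, update_of_ne h10]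
        split_ifs with h2 h3 h3
        · linarith
        · have : v 0 < 1 := by
            by_contra hc
            exact h3 ⟨h2.1, not_lt.1 hc⟩
          linarith
        · linarith [h3.2]
        · linarith
      · simp [M0, h1, h0]

lemma price_prof (a : ℝ) (x : Fin k → Fin (n + 1)) :
    price n (prof a x) = if S x then (n:ℝ) + 1 else 2 := by
  have : (∃ x' : Fin k → Fin (n + 1), S x' ∧ ∀ j, prof a x j.succ.succ = g (x' j)) ↔ S x := by
    constructor
    · rintro ⟨x', h1, h2⟩
      have : x = x' := funext fun j => g_inj (by simpa [prof] using h2 j)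
      rwa [this]
    · intro h
      exact ⟨x, h, fun j => by simp [prof]⟩
  simp only [price, this]

lemma rev_M0 (hn : Odd n) (hn3 : 3 ≤ n) (hk : 0 < k) :
    rev (wt (k := k) (n := n)) (fun ω => prof (hi n ω.2) ω.1) (M0 k n) = 5 / 2 - 1 / (n + 1) := by
  have hm : (4:ℝ) ≤ n + 1 := by
    have : (3:ℝ) ≤ n := by exact_mod_cast hn3
    linarith
  have hN : (0:ℝ) < ((n:ℝ) + 1) ^ k := by positivity
  have hline : ∀ x : Fin k → Fin (n + 1),
      wt (x, true) * ∑ i, (M0 k n).p (prof (hi n true) x) i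
      + wt (x, false) * ∑ i, (M0 k n).p (prof (hi n false) x) i
      = (2 + (1 - 2 / ((n:ℝ) + 1)) * (if S x then 1 else 0)) / ((n:ℝ) + 1) ^ k := by
    intro x
    rw [sum_two _ (fun j => by simp [M0, ss_ne_one]), sum_two _ (fun j => by simp [M0, ss_ne_one])]
    have e1 : ∀ a, prof a x 1 = a := fun a => rfl
    have e0 : ∀ a, prof a x 0 = 1 := fun a => rfl
    have h01 : (0 : Fin (k + 2)) ≠ 1 := by simp
    simp only [M0, price_prof, e0, e1, wt, hi, if_true, h01, if_false, Bool.false_eq_true]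
    have h2 : (2:ℝ) < n + 1 := by linarith
    by_cases hS : S x
    · simp only [hS, if_true, le_refl, lt_irrefl, false_and, if_false, h2, true_and, h2.not_ge]
      field_simp; ring
    · simp only [hS, if_false, le_refl, lt_irrefl, false_and, if_true]
      ring
  unfold rev
  rw [Fintype.sum_prod_type]
  simp only [Fintype.sum_bool]
  rw [Finset.sum_congr rfl fun x _ => hline x, ← Finset.sum_div, Finset.sum_add_distrib,
    ← Finset.mul_sum]
  have hc := count_S (k := k) hn hk
  have h3 : (∑ x : Fin k → Fin (n + 1), if S x then (1:ℝ) else 0) = ((n:ℝ) + 1) ^ k / 2 := by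
    linarith
  rw [h3]
  simp only [sum_const, card_univ, Fintype.card_pi, Fintype.card_fin, prod_const, nsmul_eq_mul]
  push_cast
  field_simp; ring

lemma wt_nonneg (hn3 : 3 ≤ n) (ω : (Fin k → Fin (n + 1)) × Bool) : 0 ≤ wt ω := by
  have hm : (4:ℝ) ≤ n + 1 := by
    have : (3:ℝ) ≤ n := by exact_mod_cast hn3
    linarith
  have : 2 / ((n:ℝ) + 1) ≤ 1 := by rw [div_le_one (by linarith)]; linarith
  unfold wt
  refine div_nonneg ?_ (by positivity)
  split_ifs
  · positivity
  · exact le_rfl
  · linarith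
  · norm_num

lemma wt_sum : ∑ ω : (Fin k → Fin (n + 1)) × Bool, wt ω = 1 := by
  rw [Fintype.sum_prod_type]
  simp only [Fintype.sum_bool]
  rw [Finset.sum_congr rfl (g := fun _ => 1 / ((n:ℝ) + 1) ^ k) fun x _ => ?_]
  · simp only [sum_const, card_univ, Fintype.card_pi, Fintype.card_fin, prod_const, nsmul_eq_mul]
    push_cast
    field_simp
  · simp only [wt, if_true, Bool.false_eq_true, if_false]
    split_ifs <;> ring

lemma look_le (hn : Odd n) (hn3 : 3 ≤ n) (M : Family (k + 2))
    (hM : IsLookahead (k + 1) (wt (k := k) (n := n)) (fun ω => prof (hi n ω.2) ω.1) M) :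
    lookRev (k + 1) (wt (k := k) (n := n)) (fun ω => prof (hi n ω.2) ω.1) M
      ≤ 2 + (k + 5) / (n + 1) := by
  have hm : (4:ℝ) ≤ n + 1 := by
    have : (3:ℝ) ≤ n := by exact_mod_cast hn3
    linarith
  have hhi : ∀ b, 1 < hi n b := by
    intro b; unfold hi; split_ifs <;> linarith
  obtain ⟨K, hKdef⟩ : ∃ K : Finset (Fin (k + 2)), K = univ.erase 0 := ⟨_, rfl⟩
  have hK : ∀ ω : (Fin k → Fin (n + 1)) × Bool, topK (k + 1) (prof (hi n ω.2) ω.1) = K :=
    fun ω => (topK_eq _ rfl (prof_gt (hhi _) _)).trans hKdef.symm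
  let u : {j // j ∉ K} → ℝ := fun _ => 1
  have hu : ∀ (a : ℝ) (x : Fin k → Fin (n + 1)), (fun j : {j // j ∉ K} => prof a x j) = u := by
    intro a x
    funext ⟨j, hj⟩
    have : j = 0 := by simpa [hKdef] using hj
    subst this; rfl
  have hV : Valid (M K u) := by
    have hw : 0 < wt (k := k) (n := n) (0, false) := by
      have : 2 / ((n:ℝ) + 1) < 1 := by rw [div_lt_one (by linarith)]; linarith
      simp only [wt, Bool.false_eq_true, if_false]
      refine div_pos ?_ (by positivity)
      split_ifs <;> linarith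
    have h := (hM (0, false) hw).1
    have key : ∀ K' : Finset (Fin (k + 2)), K' = K →
        Valid (M K' fun j => prof (hi n false) (0 : Fin k → Fin (n + 1)) j) → Valid (M K u) := by
      rintro _ rfl h
      rwa [hu] at h
    exact key _ (hK (0, false)) h
  have hrev : lookRev (k + 1) (wt (k := k) (n := n)) (fun ω => prof (hi n ω.2) ω.1) M
      = ∑ ω : (Fin k → Fin (n + 1)) × Bool,
        wt ω * ∑ i : {i // i ∈ K}, (M K u).p (fun i => prof (hi n ω.2) ω.1 i) i := by
    unfold lookRev
    refine Finset.sum_congr rfl fun ω _ => ?_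
    congr 1
    have key : ∀ K' : Finset (Fin (k + 2)), K' = K →
        ∑ i : {i // i ∈ K'}, (M K' fun j => prof (hi n ω.2) ω.1 j).p
          (fun i => prof (hi n ω.2) ω.1 i) i
        = ∑ i : {i // i ∈ K}, (M K u).p (fun i => prof (hi n ω.2) ω.1 i) i := by
      rintro _ rfl
      rw [hu]
    exact key _ (hK ω)
  rw [hrev]
  have h1 : (1 : Fin (k + 2)) ∈ K := by simp [hKdef]
  have h2 : ∀ j : Fin k, j.succ.succ ∈ K := fun j => by simp [hKdef]
  have hcases : ∀ i : {i // i ∈ K}, i = ⟨1, h1⟩ ∨ ∃ j : Fin k, i = ⟨j.succ.succ, h2 j⟩ := by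
    rintro ⟨i, hi⟩
    have hi0 : i ≠ 0 := by simpa [hKdef] using hi
    obtain ⟨i, rfl⟩ := Fin.exists_succ_eq.2 hi0
    induction i using Fin.cases with
    | zero => left; rfl
    | succ j => right; exact ⟨j, rfl⟩
  refine core hn hn3 ⟨1, h1⟩ (fun j => ⟨j.succ.succ, h2 j⟩) ?_
    (fun a x (i : {i // i ∈ K}) => prof a x i) (fun a x => rfl) (fun a x j => rfl)
    (fun a x ha i => prof_pos ha x i) ?_ ?_ _ hV
  · intro f
    let e : Fin (k + 1) ≃ {i // i ∈ K} := Equiv.ofBijective (fun i => ⟨i.succ, by simp [hKdef]⟩) (by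
      constructor
      · intro a b h
        exact Fin.succ_injective _ (congrArg Subtype.val h)
      · rintro ⟨i, hi⟩
        have hi0 : i ≠ 0 := by simpa [hKdef] using hi
        obtain ⟨i, rfl⟩ := Fin.exists_succ_eq.2 hi0
        exact ⟨i, rfl⟩)
    rw [← e.sum_comp, Fin.sum_univ_succ]
    rfl
  · intro a a' x
    funext i
    rcases hcases i with rfl | ⟨j, rfl⟩
    · rw [update_self]; rfl
    · rw [update_of_ne (fun h => ss_ne_one j (congrArg Subtype.val h))]; rfl
  · intro a x j c
    funext i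
    rcases hcases i with rfl | ⟨j', rfl⟩
    · rw [update_of_ne (fun h => ss_ne_one j (congrArg Subtype.val h).symm)]; rfl
    · by_cases h : j' = j
      · subst h
        rw [update_self]
        simp [prof]
      · rw [update_of_ne (fun h' => h (Fin.succ_injective _ (Fin.succ_injective _
          (congrArg Subtype.val h'))))]
        simp [prof, update_of_ne h]

end Example

theorem result (k : ℕ) (hk : 2 ≤ k) (ε : ℝ) (hε : 0 < ε) :
    ∃ (n : ℕ) (Ω : Type) (_ : Fintype Ω) (w : Ω → ℝ) (val : Ω → Fin n → ℝ),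
      (∀ ω, 0 ≤ w ω) ∧ ∑ ω, w ω = 1 ∧ (∀ ω i, 0 < val ω i) ∧ 0 < OPT w val ∧
      (∃ M : Family n, IsLookahead k w val M) ∧
      ∀ M : Family n, IsLookahead k w val M →
        lookRev k w val M ≤ (4 / 5 + ε) * OPT w val := by
  obtain ⟨k, rfl⟩ : ∃ k', k = k' + 1 := ⟨k - 1, by omega⟩
  obtain ⟨r, hr⟩ := exists_nat_gt ((k + 6) / ε)
  have hn : Odd (2 * r + 3) := ⟨r + 1, by ring⟩
  have hn3 : 3 ≤ 2 * r + 3 := by omega
  have hr' : ((k:ℝ) + 6) / ε < ((2 * r + 3 : ℕ) : ℝ) + 1 := by
    push_cast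
    have : (0:ℝ) ≤ r := by positivity
    linarith
  generalize 2 * r + 3 = n at hn hn3 hr'
  have hm : (4:ℝ) ≤ n + 1 := by
    have : (3:ℝ) ≤ n := by exact_mod_cast hn3
    linarith
  have hval : ∀ (ω : (Fin k → Fin (n + 1)) × Bool) i, 0 < prof (hi n ω.2) ω.1 i := by
    intro ω i
    refine prof_pos ?_ _ _
    unfold hi; split_ifs <;> linarith
  have hopt := le_OPT (wt (k := k) (n := n)) (fun ω => prof (hi n ω.2) ω.1) (wt_nonneg hn3) hval
    (M0 k n) M0_valid
  rw [rev_M0 hn hn3 (by omega)] at hopt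
  have hu1 : 1 / ((n:ℝ) + 1) ≤ 1 / 4 := one_div_le_one_div_of_le (by norm_num) hm
  have hu0 : 0 < 1 / ((n:ℝ) + 1) := by positivity
  refine ⟨k + 2, (Fin k → Fin (n + 1)) × Bool, inferInstance, wt,
    fun ω => prof (hi n ω.2) ω.1, wt_nonneg hn3, wt_sum, hval, by linarith,
    exists_lookahead _ _ _ (wt_nonneg hn3) hval, fun M hM => (look_le hn hn3 M hM).trans ?_⟩
  refine le_trans ?_ (mul_le_mul_of_nonneg_left hopt (by linarith))
  have h1 : ((k:ℝ) + 6) * (1 / ((n:ℝ) + 1)) < ε := by
    rw [div_lt_iff₀ hε] at hr'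
    rw [mul_one_div, div_lt_iff₀ (by linarith)]
    linarith
  have h2 : ((k:ℝ) + 5) / (n + 1) = (k + 5) * (1 / ((n:ℝ) + 1)) := by ring
  rw [h2]
  generalize 1 / ((n:ℝ) + 1) = u at *
  nlinarith

end Pool.Agent.Results.MP_0f9109_lc.FourFifths
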